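import Mathlib

set_option autoImplicit false

/-!
An Ahlfors–Schwarz lemma for entire curves in projective space and homogeneous expressions of
negative degree in the first jet.
-/

open Filter Topology ComplexConjugate

namespace Pool.Agent.H89.AS

variable {ι : Type*} [Fintype ι]

/-- The square of the hermitian norm. -/
noncomputable def nsq (x : ι → ℂ) : ℝ := ∑ i, ‖x i‖ ^ 2

/-- Twice the square of the norm of `x ∧ v`. -/
noncomputable def wsq (x v : ι → ℂ) : ℝ := ∑ i, ∑ j, ‖x i * v j - x j * v i‖ ^ 2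

theorem nsq_nonneg (x : ι → ℂ) : 0 ≤ nsq x := Finset.sum_nonneg fun _ _ => by positivity

theorem wsq_nonneg (x v : ι → ℂ) : 0 ≤ wsq x v :=
  Finset.sum_nonneg fun _ _ => Finset.sum_nonneg fun _ _ => by positivity

theorem nsq_pos {x : ι → ℂ} (hx : x ≠ 0) : 0 < nsq x := by
  obtain ⟨i, hi⟩ := Function.ne_iff.mp hx
  refine lt_of_lt_of_le ?_ (Finset.single_le_sum (fun j _ => by positivity) (Finset.mem_univ i))
  have : x i ≠ 0 := hi
  positivity

theorem wsq_symm (x v : ι → ℂ) : wsq v x = wsq x v := by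
  unfold wsq
  refine Finset.sum_congr rfl fun i _ => Finset.sum_congr rfl fun j _ => ?_
  rw [← norm_neg]
  congr 2
  ring

/-- Lagrange's identity. -/
theorem lagrange (x y : ι → ℂ) :
    nsq x * nsq y = ‖∑ i, x i * conj (y i)‖ ^ 2 + wsq x y / 2 := by
  have key : (2 : ℂ) * ((nsq x * nsq y : ℝ) : ℂ) =
      2 * ((‖∑ i, x i * conj (y i)‖ ^ 2 : ℝ) : ℂ) + ((wsq x y : ℝ) : ℂ) := by
    unfold nsq wsq
    push_cast
    simp only [← Complex.mul_conj']
    rw [map_sum, Finset.sum_mul_sum, Finset.sum_mul_sum]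
    have h1 : ∀ i j, (x i * y j - x j * y i) * conj (x i * y j - x j * y i) =
        (x i * conj (x i)) * (y j * conj (y j)) + (x j * conj (x j)) * (y i * conj (y i))
          - (x i * conj (y i)) * conj (x j * conj (y j))
          - (x j * conj (y j)) * conj (x i * conj (y i)) := by
      intro i j
      simp only [map_sub, map_mul, Complex.conj_conj]
      ring
    simp only [h1, Finset.sum_add_distrib, Finset.sum_sub_distrib]
    have h2 : ∑ i, ∑ j, (x j * conj (x j)) * (y i * conj (y i)) =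
        ∑ i, ∑ j, (x i * conj (x i)) * (y j * conj (y j)) := Finset.sum_comm
    have h3 : ∑ i, ∑ j, (x j * conj (y j)) * conj (x i * conj (y i)) =
        ∑ i, ∑ j, (x i * conj (y i)) * conj (x j * conj (y j)) := Finset.sum_comm
    rw [h2, h3]
    ring
  have := congrArg Complex.re key
  simp only [Complex.mul_re, Complex.add_re, Complex.ofReal_re, Complex.re_ofNat,
    Complex.im_ofNat, Complex.ofReal_im, mul_zero, sub_zero] at this
  linarith

theorem frequently_one_le {B : ℂ → ℂ} {z₀ : ℂ} (hB : ∀ᶠ z in 𝓝 z₀, DifferentiableAt ℂ B z)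
    (h1 : B z₀ = 1) : ∃ᶠ z in 𝓝[≠] z₀, 1 ≤ ‖B z‖ := by
  intro hcon
  simp only [not_le] at hcon
  have hmax : IsLocalMax (norm ∘ B) z₀ := by
    have := eventually_nhdsWithin_iff.mp hcon
    filter_upwards [this] with z hz
    by_cases hz0 : z = z₀
    · simp [hz0]
    · have := hz hz0
      simp only [Function.comp, h1, norm_one]
      exact this.le
  have heq := Complex.eventually_eq_of_isLocalMax_norm hB hmax
  have h3 : ∀ᶠ z in 𝓝[≠] z₀, False := by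
    filter_upwards [hcon, heq.filter_mono nhdsWithin_le_nhds] with z hz hz'
    rw [hz', h1, norm_one] at hz
    exact lt_irrefl _ hz
  exact (h3.exists (f := 𝓝[≠] z₀)).choose_spec

theorem bernoulli_combo {a b : ℝ} (p m : ℕ) (ha : 0 ≤ a) (hb1 : b ≤ 1)
    (h : (1 + a) ^ p * (1 - b) ^ m ≤ 1) : (1 + p * a) * (1 - m * b) ≤ 1 := by
  by_cases hc : 0 ≤ 1 - m * b
  · have h1 : 1 + p * a ≤ (1 + a) ^ p := one_add_mul_le_pow (by linarith) p
    have h2 : 1 - m * b ≤ (1 - b) ^ m := by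
      have := one_add_mul_le_pow (a := -b) (by linarith) m
      simpa [sub_eq_add_neg] using this
    calc (1 + p * a) * (1 - m * b) ≤ (1 + a) ^ p * (1 - b) ^ m := by gcongr
      _ ≤ 1 := h
  · push Not at hc
    have : 0 ≤ 1 + p * a := by positivity
    nlinarith

/-- The local computation at a maximum. -/
theorem local_bound {x : ℂ → ι → ℂ} {Q : ℂ → ℂ} {z₀ : ℂ}
    (hx : ∀ i, ∀ᶠ z in 𝓝 z₀, DifferentiableAt ℂ (fun z => x z i) z)
    (hQ : ∀ᶠ z in 𝓝 z₀, DifferentiableAt ℂ Q z)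
    (hx0 : x z₀ ≠ 0) (hQ0 : Q z₀ ≠ 0) {R : ℝ} (hR : ‖z₀‖ < R) (p r : ℕ)
    (hmax : ∀ᶠ z in 𝓝 z₀, ‖Q z‖ ^ 2 * nsq (x z) ^ p * (R ^ 2 - ‖z‖ ^ 2) ^ (2 * r) ≤
      ‖Q z₀‖ ^ 2 * nsq (x z₀) ^ p * (R ^ 2 - ‖z₀‖ ^ 2) ^ (2 * r)) :
    p * (wsq (x z₀) (fun i => deriv (fun z => x z i) z₀) / 2 / nsq (x z₀) ^ 2) ≤
      (2 * r : ℕ) * (R ^ 2 / (R ^ 2 - ‖z₀‖ ^ 2) ^ 2) := by
  set N₀ := nsq (x z₀) with hN₀
  have hN₀pos : 0 < N₀ := nsq_pos hx0
  set D := R ^ 2 - ‖z₀‖ ^ 2 with hD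
  have hDpos : 0 < D := by
    have : 0 ≤ ‖z₀‖ := norm_nonneg _
    nlinarith
  have hRpos : 0 < R := lt_of_le_of_lt (norm_nonneg _) hR
  set α : ℂ → ℂ := fun z => ∑ i, x z i * conj (x z₀ i) with hα
  have hα0 : α z₀ = (N₀ : ℂ) := by
    simp only [hα, hN₀, nsq]
    push_cast
    exact Finset.sum_congr rfl fun i _ => by rw [Complex.mul_conj']
  set L : ℂ → ℂ := fun z => 1 - conj z₀ * (z - z₀) / D with hL
  have hL0 : L z₀ = 1 := by simp [hL]
  set B : ℂ → ℂ := fun z => (Q z / Q z₀) * (α z / N₀) ^ p * L z ^ (2 * r) with hB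
  have hB0 : B z₀ = 1 := by
    simp only [hB, hα0, hL0]
    rw [div_self hQ0, div_self (by exact_mod_cast hN₀pos.ne')]
    simp
  have hxall : ∀ᶠ z in 𝓝 z₀, ∀ i, DifferentiableAt ℂ (fun z => x z i) z :=
    eventually_all.mpr hx
  have hαd : ∀ᶠ z in 𝓝 z₀, DifferentiableAt ℂ α z := by
    filter_upwards [hxall] with z hz
    simp only [hα]
    exact DifferentiableAt.fun_sum fun i _ => (hz i).mul_const _
  have hLd : Differentiable ℂ L := by
    simp only [hL]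
    fun_prop
  have hBd : ∀ᶠ z in 𝓝 z₀, DifferentiableAt ℂ B z := by
    filter_upwards [hαd, hQ] with z h1 h2
    simp only [hB]
    exact ((h2.div_const _).mul ((h1.div_const _).pow _)).mul ((hLd z).pow _)
  have hfreq := frequently_one_le hBd hB0
  have hαc : ContinuousAt α z₀ := hαd.self_of_nhds.continuousAt
  have hαne : ∀ᶠ z in 𝓝 z₀, α z ≠ 0 :=
    hαc.eventually_ne (by rw [hα0]; exact_mod_cast hN₀pos.ne')
  have hLne : ∀ᶠ z in 𝓝 z₀, L z ≠ 0 :=
    (hLd.continuous.continuousAt).eventually_ne (by rw [hL0]; exact one_ne_zero)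
  have hblt : ∀ᶠ z in 𝓝 z₀, ‖z - z₀‖ ^ 2 * R ^ 2 / (D ^ 2 * ‖L z‖ ^ 2) < 1 := by
    have hc : ContinuousAt (fun z => ‖z - z₀‖ ^ 2 * R ^ 2 / (D ^ 2 * ‖L z‖ ^ 2)) z₀ := by
      refine ContinuousAt.div (by fun_prop) ?_ ?_
      · exact continuousAt_const.mul ((hLd.continuous.continuousAt).norm.pow 2)
      · rw [hL0]; simp [hDpos.ne']
    refine hc.eventually_lt_const ?_
    simp
  -- the inequality valid at frequently many points
  have hineq : ∃ᶠ z in 𝓝[≠] z₀,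
      p * (wsq (x z) (x z₀) / 2 / ‖α z‖ ^ 2 / ‖z - z₀‖ ^ 2) -
        (2 * r : ℕ) * (R ^ 2 / (D ^ 2 * ‖L z‖ ^ 2)) *
          (1 + p * (wsq (x z) (x z₀) / 2 / ‖α z‖ ^ 2)) ≤ 0 := by
    refine (hfreq.and_eventually (((hmax.and hαne).and (hLne.and hblt)).filter_mono
      nhdsWithin_le_nhds |>.and self_mem_nhdsWithin)).mono ?_
    rintro z ⟨hB1, ⟨⟨⟨hmz, hαz⟩, hLz, hbz⟩, hzne⟩⟩
    have hzne' : z - z₀ ≠ 0 := sub_ne_zero.mpr hzne
    have hζpos : 0 < ‖z - z₀‖ ^ 2 := by positivity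
    have hαpos : 0 < ‖α z‖ ^ 2 := by positivity
    have hLpos : 0 < ‖L z‖ ^ 2 := by positivity
    set a := wsq (x z) (x z₀) / 2 / ‖α z‖ ^ 2 with ha
    have ha0 : 0 ≤ a := by have := wsq_nonneg (x z) (x z₀); positivity
    set b := ‖z - z₀‖ ^ 2 * R ^ 2 / (D ^ 2 * ‖L z‖ ^ 2) with hb
    have hb0 : 0 ≤ b := by positivity
    have hNz : nsq (x z) = ‖α z‖ ^ 2 / N₀ * (1 + a) := by
      have := lagrange (x z) (x z₀)
      rw [← hN₀] at this
      rw [ha]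
      field_simp
      field_simp at this
      simp only [hα]
      linarith
    have hRz : R ^ 2 - ‖z‖ ^ 2 = D * ‖L z‖ ^ 2 * (1 - b) := by
      have h1 : D * ‖L z‖ ^ 2 * (1 - b) = D * ‖L z‖ ^ 2 - ‖z - z₀‖ ^ 2 * R ^ 2 / D := by
        rw [hb]; field_simp
      rw [h1]
      have h2 : (D : ℂ) * L z = D - conj z₀ * (z - z₀) := by
        simp only [hL]
        field_simp [show (D : ℂ) ≠ 0 by exact_mod_cast hDpos.ne']
      have h3 : D ^ 2 * ‖L z‖ ^ 2 = ‖(D : ℂ) - conj z₀ * (z - z₀)‖ ^ 2 := by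
        rw [← h2, norm_mul, mul_pow, Complex.norm_real, Real.norm_of_nonneg hDpos.le]
      have h4 : ‖(D : ℂ) - conj z₀ * (z - z₀)‖ ^ 2 =
          D ^ 2 - 2 * D * (conj z₀ * (z - z₀)).re + ‖z₀‖ ^ 2 * ‖z - z₀‖ ^ 2 := by
        have e1 : ‖conj z₀ * (z - z₀)‖ ^ 2 = ‖z₀‖ ^ 2 * ‖z - z₀‖ ^ 2 := by
          rw [norm_mul, Complex.norm_conj, mul_pow]
        rw [← e1, ← Complex.normSq_eq_norm_sq, ← Complex.normSq_eq_norm_sq,
          Complex.normSq_apply, Complex.normSq_apply]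
        simp only [Complex.sub_re, Complex.sub_im, Complex.ofReal_re, Complex.ofReal_im]
        ring
      have h5 : ‖z‖ ^ 2 = ‖z₀‖ ^ 2 + 2 * (conj z₀ * (z - z₀)).re + ‖z - z₀‖ ^ 2 := by
        rw [← Complex.normSq_eq_norm_sq, ← Complex.normSq_eq_norm_sq,
          ← Complex.normSq_eq_norm_sq, Complex.normSq_apply, Complex.normSq_apply,
          Complex.normSq_apply]
        simp only [Complex.sub_re, Complex.sub_im, Complex.mul_re, Complex.conj_re,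
          Complex.conj_im]
        ring
      have h6 : D * ‖L z‖ ^ 2 =
          D - 2 * (conj z₀ * (z - z₀)).re + ‖z₀‖ ^ 2 * ‖z - z₀‖ ^ 2 / D := by
        have : D * (D * ‖L z‖ ^ 2) =
            D * (D - 2 * (conj z₀ * (z - z₀)).re + ‖z₀‖ ^ 2 * ‖z - z₀‖ ^ 2 / D) := by
          rw [← mul_assoc, ← sq, h3, h4]
          field_simp
        exact mul_left_cancel₀ hDpos.ne' this
      rw [h6, h5]
      have h7 : R ^ 2 = D + ‖z₀‖ ^ 2 := by rw [hD]; ring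
      rw [h7]
      field_simp
      ring
    have hBn : ‖B z‖ ^ 2 = ‖Q z‖ ^ 2 / ‖Q z₀‖ ^ 2 * (‖α z‖ ^ 2 / N₀ ^ 2) ^ p *
        (‖L z‖ ^ 2) ^ (2 * r) := by
      simp only [hB, norm_mul, norm_div, norm_pow, Complex.norm_real,
        Real.norm_of_nonneg hN₀pos.le]
      rw [mul_pow, mul_pow, div_pow, ← pow_mul, ← pow_mul, mul_comm p 2, pow_mul, div_pow,
        mul_comm (2 * r) 2, pow_mul]
    have hQpos : 0 < ‖Q z₀‖ ^ 2 := by positivity
    have hprod : ‖B z‖ ^ 2 * ((1 + a) ^ p * (1 - b) ^ (2 * r)) ≤ 1 := by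
      have e1 : ‖B z‖ ^ 2 * ((1 + a) ^ p * (1 - b) ^ (2 * r)) *
          (‖Q z₀‖ ^ 2 * N₀ ^ p * D ^ (2 * r)) =
          ‖Q z‖ ^ 2 * nsq (x z) ^ p * (R ^ 2 - ‖z‖ ^ 2) ^ (2 * r) := by
        rw [hBn, hNz, hRz]
        simp only [mul_pow, div_pow]
        field_simp
        rw [← pow_mul, ← pow_mul, mul_comm 2 p]
        ring
      have e2 : 0 < ‖Q z₀‖ ^ 2 * N₀ ^ p * D ^ (2 * r) := by positivity
      rw [← e1] at hmz
      by_contra hcon
      push Not at hcon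
      have := mul_lt_mul_of_pos_right hcon e2
      linarith
    have hcomb : (1 + a) ^ p * (1 - b) ^ (2 * r) ≤ 1 := by
      have e1 : 1 ≤ ‖B z‖ ^ 2 := by nlinarith
      have e2 : 0 ≤ (1 + a) ^ p * (1 - b) ^ (2 * r) := by
        have : 0 ≤ 1 - b := by linarith
        positivity
      nlinarith
    have hfin := bernoulli_combo p (2 * r) ha0 hbz.le hcomb
    have e3 : p * (a / ‖z - z₀‖ ^ 2) - (2 * r : ℕ) * (R ^ 2 / (D ^ 2 * ‖L z‖ ^ 2)) *
        (1 + p * a) = (p * a - (2 * r : ℕ) * b * (1 + p * a)) / ‖z - z₀‖ ^ 2 := by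
      rw [hb]
      field_simp
    rw [e3]
    apply div_nonpos_of_nonpos_of_nonneg _ hζpos.le
    nlinarith
  -- limits
  have hxc : ∀ i, HasDerivAt (fun z => x z i) (deriv (fun z => x z i) z₀) z₀ :=
    fun i => (hx i).self_of_nhds.hasDerivAt
  have hslope : ∀ i j, Tendsto (fun z => (x z i * x z₀ j - x z j * x z₀ i) / (z - z₀))
      (𝓝[≠] z₀) (𝓝 (deriv (fun z => x z i) z₀ * x z₀ j - deriv (fun z => x z j) z₀ * x z₀ i)) := by
    intro i j
    have h1 : HasDerivAt (fun z => x z i * x z₀ j - x z j * x z₀ i)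
        (deriv (fun z => x z i) z₀ * x z₀ j - deriv (fun z => x z j) z₀ * x z₀ i) z₀ :=
      ((hxc i).mul_const _).sub ((hxc j).mul_const _)
    have h2 := hasDerivAt_iff_tendsto_slope.mp h1
    refine h2.congr fun z => ?_
    rw [slope_def_field]
    congr 1
    ring
  have hw : Tendsto (fun z => wsq (x z) (x z₀) / ‖z - z₀‖ ^ 2) (𝓝[≠] z₀)
      (𝓝 (wsq (fun i => deriv (fun z => x z i) z₀) (x z₀))) := by
    have h1 : ∀ z, wsq (x z) (x z₀) / ‖z - z₀‖ ^ 2 =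
        ∑ i, ∑ j, ‖(x z i * x z₀ j - x z j * x z₀ i) / (z - z₀)‖ ^ 2 := by
      intro z
      unfold wsq
      simp only [Finset.sum_div, norm_div, div_pow]
    simp only [h1]
    unfold wsq
    exact tendsto_finsetSum _ fun i _ => tendsto_finsetSum _ fun j _ =>
      ((hslope i j).norm.pow 2)
  have hαt : Tendsto (fun z => ‖α z‖ ^ 2) (𝓝[≠] z₀) (𝓝 (N₀ ^ 2)) := by
    have := (hαc.norm.tendsto.mono_left (nhdsWithin_le_nhds (s := {z₀}ᶜ))).pow 2
    simpa [hα0, abs_of_pos hN₀pos] using this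
  have hLt : Tendsto (fun z => ‖L z‖ ^ 2) (𝓝[≠] z₀) (𝓝 1) := by
    have := ((hLd.continuous.continuousAt (x := z₀)).norm.tendsto.mono_left
      (nhdsWithin_le_nhds (s := {z₀}ᶜ))).pow 2
    simpa [hL0] using this
  have hζt : Tendsto (fun z => ‖z - z₀‖ ^ 2) (𝓝[≠] z₀) (𝓝 0) := by
    have : ContinuousAt (fun z => ‖z - z₀‖ ^ 2) z₀ := by fun_prop
    have := this.tendsto.mono_left (nhdsWithin_le_nhds (s := {z₀}ᶜ))
    simpa using this
  have hat : Tendsto (fun z => wsq (x z) (x z₀) / 2 / ‖α z‖ ^ 2 / ‖z - z₀‖ ^ 2) (𝓝[≠] z₀)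
      (𝓝 (wsq (x z₀) (fun i => deriv (fun z => x z i) z₀) / 2 / N₀ ^ 2)) := by
    have h1 := (hw.div_const 2).div hαt (by positivity)
    rw [wsq_symm] at h1
    refine h1.congr fun z => ?_
    simp only [Pi.div_apply]
    field_simp
  have hat0 : Tendsto (fun z => wsq (x z) (x z₀) / 2 / ‖α z‖ ^ 2) (𝓝[≠] z₀) (𝓝 0) := by
    have h1 := hat.mul hζt
    rw [mul_zero] at h1
    refine h1.congr' ?_
    filter_upwards [self_mem_nhdsWithin] with z hz
    have : z - z₀ ≠ 0 := sub_ne_zero.mpr hz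
    have : ‖z - z₀‖ ^ 2 ≠ 0 := by positivity
    field_simp
  have hbt : Tendsto (fun z => R ^ 2 / (D ^ 2 * ‖L z‖ ^ 2)) (𝓝[≠] z₀) (𝓝 (R ^ 2 / D ^ 2)) := by
    have := (tendsto_const_nhds (x := R ^ 2)).div (hLt.const_mul (D ^ 2))
      (by simp [hDpos.ne'])
    rw [mul_one] at this
    exact this.congr fun z => rfl
  have hlim := (hat.const_mul (p : ℝ)).sub
    ((hbt.const_mul ((2 * r : ℕ) : ℝ)).mul ((hat0.const_mul (p : ℝ)).const_add 1))
  have hle := le_of_tendsto_of_frequently hlim hineq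
  simp only [mul_zero, add_zero, mul_one] at hle
  linarith

/-- **Ahlfors–Schwarz lemma.**  If `Q` is entire and `|Q|² |x|^{2(p+2r)} ≤ C |x ∧ x'|^{2r}` with
`p, r ≥ 1`, then `Q = 0`. -/
theorem eq_zero {x : ℂ → ι → ℂ} {Q : ℂ → ℂ}
    (hx : ∀ i, Differentiable ℂ (fun z => x z i)) (hQ : Differentiable ℂ Q)
    (hx0 : ∀ z, x z ≠ 0) {p r : ℕ} (hp : 1 ≤ p) (hr : 1 ≤ r) (C : ℝ)
    (hb : ∀ z, ‖Q z‖ ^ 2 * nsq (x z) ^ (p + 2 * r) ≤
      C * wsq (x z) (fun i => deriv (fun z => x z i) z) ^ r) (w : ℂ) : Q w = 0 := by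
  by_contra hQw
  have hNc : Continuous (fun z => nsq (x z)) := by
    unfold nsq
    exact continuous_finsetSum _ fun i _ => ((hx i).continuous.norm.pow 2)
  have hp' : (0 : ℝ) < p := by exact_mod_cast hp
  have hr' : (0 : ℝ) < r := by exact_mod_cast hr
  have hCpos : 0 ≤ C := by
    by_contra hC
    push Not at hC
    have h1 := hb w
    have h2 : C * wsq (x w) (fun i => deriv (fun z => x z i) w) ^ r ≤ 0 :=
      mul_nonpos_of_nonpos_of_nonneg hC.le (pow_nonneg (wsq_nonneg _ _) _)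
    have h3 : 0 < ‖Q w‖ ^ 2 * nsq (x w) ^ (p + 2 * r) := by
      have := nsq_pos (hx0 w)
      positivity
    linarith
  -- bound on discs
  have hdisc : ∀ R : ℝ, ‖w‖ < R → ‖Q w‖ ^ 2 * nsq (x w) ^ p * (R ^ 2 - ‖w‖ ^ 2) ^ (2 * r) ≤
      C * (4 * r * R ^ 2 / p) ^ r := by
    intro R hR
    have hRpos : 0 < R := lt_of_le_of_lt (norm_nonneg _) hR
    set H : ℂ → ℝ := fun z => ‖Q z‖ ^ 2 * nsq (x z) ^ p * (R ^ 2 - ‖z‖ ^ 2) ^ (2 * r) with hH
    have hHc : Continuous H := by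
      simp only [hH]
      exact ((hQ.continuous.norm.pow 2).mul (hNc.pow p)).mul (by fun_prop)
    obtain ⟨z₀, hz₀, hmax⟩ := (isCompact_closedBall (0 : ℂ) R).exists_isMaxOn
      ⟨w, by simpa using hR.le⟩ hHc.continuousOn
    have hw' : H w ≤ H z₀ := hmax (by simpa using hR.le)
    have hHw : 0 < H w := by
      simp only [hH]
      have h1 := nsq_pos (hx0 w)
      have h2 : 0 < R ^ 2 - ‖w‖ ^ 2 := by
        have : 0 ≤ ‖w‖ := norm_nonneg _
        nlinarith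
      positivity
    refine hw'.trans ?_
    have hz₀' : ‖z₀‖ ≤ R := by simpa using hz₀
    have hz₀lt : ‖z₀‖ < R := by
      refine lt_of_le_of_ne hz₀' fun heq => ?_
      have : H z₀ = 0 := by
        simp only [hH, heq, sub_self]
        rw [zero_pow (by omega), mul_zero]
      linarith
    have hQ0 : Q z₀ ≠ 0 := by
      intro h0
      have : H z₀ = 0 := by simp only [hH, h0]; simp
      linarith
    have hloc := local_bound (x := x) (Q := Q) (z₀ := z₀)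
      (fun i => Eventually.of_forall fun z => hx i z)
      (Eventually.of_forall fun z => hQ z) (hx0 z₀) hQ0 hz₀lt p r (by
        filter_upwards [Metric.isOpen_ball.mem_nhds
          (show z₀ ∈ Metric.ball (0 : ℂ) R by simpa using hz₀lt)] with z hz
        exact hmax (by simpa using (mem_ball_zero_iff.mp hz).le))
    have hDpos : 0 < R ^ 2 - ‖z₀‖ ^ 2 := by
      have : 0 ≤ ‖z₀‖ := norm_nonneg _
      nlinarith
    have hN0 := nsq_pos (hx0 z₀)
    have hW0 := wsq_nonneg (x z₀) (fun i => deriv (fun z => x z i) z₀)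
    set W₀ := wsq (x z₀) (fun i => deriv (fun z => x z i) z₀) with hW₀
    set N₀ := nsq (x z₀)
    set D := R ^ 2 - ‖z₀‖ ^ 2 with hD
    have h1 : W₀ ≤ N₀ ^ 2 * (4 * r * R ^ 2 / p / D ^ 2) := by
      have e : W₀ = (p * (W₀ / 2 / N₀ ^ 2)) * (2 * N₀ ^ 2 / p) := by field_simp
      rw [e]
      calc _ ≤ ((2 * r : ℕ) * (R ^ 2 / D ^ 2)) * (2 * N₀ ^ 2 / p) := by gcongr
        _ = _ := by push_cast; field_simp; ring
    have h2 : ‖Q z₀‖ ^ 2 * N₀ ^ p * N₀ ^ (2 * r) ≤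
        C * (N₀ ^ 2 * (4 * r * R ^ 2 / p / D ^ 2)) ^ r := by
      calc ‖Q z₀‖ ^ 2 * N₀ ^ p * N₀ ^ (2 * r) = ‖Q z₀‖ ^ 2 * N₀ ^ (p + 2 * r) := by
            rw [pow_add]; ring
        _ ≤ C * W₀ ^ r := hb z₀
        _ ≤ _ := by gcongr
    have h3 : ‖Q z₀‖ ^ 2 * N₀ ^ p ≤ C * (4 * r * R ^ 2 / p / D ^ 2) ^ r := by
      have h2' : N₀ ^ (2 * r) * (‖Q z₀‖ ^ 2 * N₀ ^ p) ≤
          N₀ ^ (2 * r) * (C * (4 * r * R ^ 2 / p / D ^ 2) ^ r) := by
        calc _ = ‖Q z₀‖ ^ 2 * N₀ ^ p * N₀ ^ (2 * r) := by ring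
          _ ≤ _ := h2
          _ = _ := by rw [mul_pow, ← pow_mul]; ring
      exact le_of_mul_le_mul_left h2' (by positivity)
    calc H z₀ = ‖Q z₀‖ ^ 2 * N₀ ^ p * D ^ (2 * r) := rfl
      _ ≤ C * (4 * r * R ^ 2 / p / D ^ 2) ^ r * D ^ (2 * r) := by gcongr
      _ = C * (4 * r * R ^ 2 / p) ^ r := by
        rw [div_pow _ (D ^ 2), ← pow_mul]
        field_simp
  -- let `R → ∞`
  set K : ℝ := ‖Q w‖ ^ 2 * nsq (x w) ^ p with hK
  have hKpos : 0 < K := by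
    have := nsq_pos (hx0 w)
    positivity
  set M : ℝ := C * (16 * r / p) ^ r with hM
  have hM0 : 0 ≤ M := by positivity
  obtain ⟨R, hR1, hR2⟩ : ∃ R : ℝ, (2 * ‖w‖ + 1 ≤ R) ∧ M < K * R ^ 2 := by
    refine ⟨max (2 * ‖w‖ + 1) (M / K + 1), le_max_left _ _, ?_⟩
    set R := max (2 * ‖w‖ + 1) (M / K + 1)
    have h1 : M / K + 1 ≤ R := le_max_right _ _
    have h2 : 1 ≤ R := by
      have : 0 ≤ M / K := by positivity
      linarith
    have h3 : M / K < R ^ 2 := by nlinarith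
    rw [div_lt_iff₀ hKpos] at h3
    linarith
  have hwn : 0 ≤ ‖w‖ := norm_nonneg _
  have hR0 : 1 ≤ R := by linarith
  have h1 := hdisc R (by linarith)
  have h2 : R ^ 2 / 2 ≤ R ^ 2 - ‖w‖ ^ 2 := by nlinarith
  have h3 : K * (R ^ 2 / 2) ^ (2 * r) ≤ C * (4 * r * R ^ 2 / p) ^ r := by
    refine le_trans ?_ h1
    gcongr
  have h4 : K * (R ^ 2) ^ r ≤ M := by
    have e1 : (R ^ 2 / 2) ^ (2 * r) = (R ^ 2) ^ r * ((R ^ 2) ^ r / 4 ^ r) := by
      rw [div_pow, two_mul, pow_add, pow_add]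
      rw [show (4 : ℝ) ^ r = 2 ^ r * 2 ^ r by rw [← mul_pow]; norm_num]
      ring
    have e2 : (4 * r * R ^ 2 / p : ℝ) ^ r = (16 * r / p) ^ r * ((R ^ 2) ^ r / 4 ^ r) := by
      rw [← div_pow, ← mul_pow]
      congr 1
      ring
    rw [e1, e2, ← mul_assoc, ← mul_assoc] at h3
    have e3 : 0 < (R ^ 2) ^ r / (4 : ℝ) ^ r := by positivity
    exact le_of_mul_le_mul_right h3 e3
  have h5 : R ^ 2 ≤ (R ^ 2) ^ r := by
    calc R ^ 2 = (R ^ 2) ^ 1 := (pow_one _).symm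
      _ ≤ (R ^ 2) ^ r := pow_le_pow_right₀ (by nlinarith) hr
  have h6 : K * R ^ 2 ≤ K * (R ^ 2) ^ r := by gcongr
  linarith

end Pool.Agent.H89.AS
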